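import Pool.Agent.Helper92.RECT.Goals2
import Pool.Agent.Helper28.OHS.Goals

/-!
# Packet RECT-LOPS: few free steps in a slab
-/

namespace Pool.Agent.Helper2.RECT

open Pool.Agent.Helper65.LinSpace Pool.Agent.Helper78.Mpc Pool.Agent.Helper28.Ram Finset
open Pool.Agent.Helper65.OH
open Pool.Agent.Helper92.RECT

theorem num_lt (w : List Bool) : num w < 2 ^ (w.length + 1) := by
  induction w with
  | nil => simp [num]
  | cons b w ih =>
    have h1 : b.toNat ≤ 1 := by cases b <;> simp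
    simp only [num, List.length_cons]
    rw [pow_succ 2 (w.length + 1)]
    omega

open Classical in
/-- The number of the times `v` with `t ≤ v < u` and the property `I`. -/
noncomputable def rk (I : ℕ → Prop) (t u : ℕ) : ℕ := ((Finset.Ico t u).filter I).card

theorem rk_succ {I : ℕ → Prop} {t u : ℕ} (h : t ≤ u) (hI : I u) :
    rk I t (u + 1) = rk I t u + 1 := by
  classical
  unfold rk
  rw [Nat.Ico_succ_right_eq_insert_Ico h, filter_insert, if_pos hI, card_insert_of_notMem]
  simp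

theorem rk_succ' {I : ℕ → Prop} {t u : ℕ} (h : ¬(t ≤ u ∧ I u)) :
    rk I t (u + 1) = rk I t u := by
  classical
  unfold rk
  by_cases ht : t ≤ u
  · rw [Nat.Ico_succ_right_eq_insert_Ico ht, filter_insert, if_neg fun hI => h ⟨ht, hI⟩]
  · rw [Finset.Ico_eq_empty (by omega), Finset.Ico_eq_empty (by omega)]

theorem rk_mono {I : ℕ → Prop} {t u v : ℕ} (h : u ≤ v) : rk I t u ≤ rk I t v := by
  classical
  exact card_le_card (filter_subset_filter _ (Finset.Ico_subset_Ico_right h))

theorem rk_self (I : ℕ → Prop) (t : ℕ) : rk I t t = 0 := by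
  classical
  unfold rk
  rw [Finset.Ico_self, filter_empty, card_empty]

theorem rk_surj {I : ℕ → Prop} {t t' k : ℕ} (hk : k < rk I t t') :
    ∃ u, t ≤ u ∧ u < t' ∧ I u ∧ rk I t u = k := by
  classical
  have hex : ∃ m, k < rk I t m := ⟨t', hk⟩
  have h1 := Nat.find_spec hex
  have h2 : Nat.find hex ≤ t' := Nat.find_min' hex hk
  have h3 : Nat.find hex ≠ 0 := by
    intro h0
    rw [h0] at h1
    have : rk I t 0 ≤ rk I t t := rk_mono (Nat.zero_le _)
    rw [rk_self] at this
    omega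
  obtain ⟨m, hm⟩ : ∃ m, Nat.find hex = m + 1 := ⟨Nat.find hex - 1, by omega⟩
  have h4 : ¬ k < rk I t m := Nat.find_min hex (by omega)
  rw [hm] at h1 h2
  by_cases hI : t ≤ m ∧ I m
  · rw [rk_succ hI.1 hI.2] at h1
    exact ⟨m, hI.1, by omega, hI.2, by omega⟩
  · rw [rk_succ' hI] at h1
    omega

/-- A long series of steps with a property. -/
theorem run {I B : ℕ → Prop} {t t' x H : ℕ} (hB : {u : ℕ | t ≤ u ∧ u < t' ∧ I u ∧ B u}.ncard ≤ x)
    (hlen : H * (x + 1) < rk I t t') (hH : 0 < H)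
    (hnext : ∀ u, t ≤ u → u < t' → I u → ¬B u → I (u + 1)) :
    ∃ a, t ≤ a ∧ a + H < t' ∧ ∀ j ≤ H, I (a + j) ∧ (j < H → ¬B (a + j)) := by
  classical
  -- a block without bad steps
  obtain ⟨i, hi, hno⟩ : ∃ i ≤ x, ∀ u, t ≤ u → u < t' → I u → i * H ≤ rk I t u →
      rk I t u < (i + 1) * H → ¬B u := by
    by_contra hc
    push Not at hc
    choose! g g1 g2 g3 g4 g5 g6 using hc
    have hfin : {u : ℕ | t ≤ u ∧ u < t' ∧ I u ∧ B u}.Finite :=
      (Set.finite_Iio t').subset fun u hu => hu.2.1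
    have hmaps : ∀ i ∈ (Finset.range (x + 1) : Finset ℕ), g i ∈ hfin.toFinset := by
      intro i hi
      rw [mem_range] at hi
      rw [Set.Finite.mem_toFinset]
      have hi' : i ≤ x := by omega
      exact ⟨g1 i hi', g2 i hi', g3 i hi', g6 i hi'⟩
    have hinj : Set.InjOn g (Finset.range (x + 1) : Finset ℕ) := by
      intro i hi j hj hij
      have hi' : i ≤ x := by
        have := mem_range.1 (mem_coe.1 hi)
        omega
      have hj' : j ≤ x := by
        have := mem_range.1 (mem_coe.1 hj)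
        omega
      have e1 := g4 i hi'
      have e2 := g5 i hi'
      have e3 := g4 j hj'
      have e4 := g5 j hj'
      rw [hij] at e1 e2
      have f1 : i < j + 1 := lt_of_mul_lt_mul_right (lt_of_le_of_lt e1 e4) (Nat.zero_le _)
      have f2 : j < i + 1 := lt_of_mul_lt_mul_right (lt_of_le_of_lt e3 e2) (Nat.zero_le _)
      omega
    have hcard := card_le_card_of_injOn _ hmaps hinj
    rw [card_range] at hcard
    rw [Set.ncard_eq_toFinset_card _ hfin] at hB
    omega
  have hbl : (i + 1) * H ≤ H * (x + 1) := by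
    rw [mul_comm H]
    exact Nat.mul_le_mul_right _ (by omega)
  have hbl' : (i + 1) * H = i * H + H := by ring
  obtain ⟨a, ha1, ha2, ha3, ha4⟩ := rk_surj (I := I) (t := t) (t' := t') (k := i * H) (by omega)
  have key : ∀ j ≤ H, a + j < t' ∧ I (a + j) ∧ rk I t (a + j) = i * H + j := by
    intro j
    induction j with
    | zero => exact fun _ => ⟨ha2, ha3, ha4⟩
    | succ j ih =>
      intro hj
      obtain ⟨h1, h2, h3⟩ := ih (by omega)
      have h4 : ¬B (a + j) := hno _ (by omega) h1 h2 (by omega) (by omega)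
      have h5 := rk_succ (t := t) (by omega) h2
      have h6 := hnext _ (by omega) h1 h2 h4
      refine ⟨?_, h6, ?_⟩
      · by_contra h7
        have h8 : a + (j + 1) = t' := by omega
        rw [← h8, ← add_assoc, h5, h3] at hlen
        omega
      · rw [← add_assoc, h5, h3]
        ring
  refine ⟨a, ha1, (key H le_rfl).1, fun j hj => ⟨(key j hj).2.1, fun hj' => ?_⟩⟩
  obtain ⟨h1, h2, h3⟩ := key j hj
  exact hno _ (by omega) h1 h2 (by omega) (by omega)

section code

variable {D : ℕ}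

/-- The digits of a position. -/
noncomputable def dg (P : ℤ) (b : ℕ) (p : Fin D → ℤ) (k : ℕ) : ℕ :=
  if h : k < D then (if k = 0 then (p ⟨k, h⟩ - P).toNat else (p ⟨k, h⟩ + 2 ^ b).toNat) else 0

/-- The position is in the slab of width `2 ^ b`, and the other coordinates are in the box. -/
structure Pos (P : ℤ) (b : ℕ) (p : Fin D → ℤ) : Prop where
  f : ∀ k : Fin D, k.val = 0 → P ≤ p k ∧ p k < P + 2 ^ b
  o : ∀ k : Fin D, k.val ≠ 0 → -2 ^ b ≤ p k ∧ p k < 2 ^ b

theorem dg_lt {P : ℤ} {b : ℕ} {p : Fin D → ℤ} (hp : Pos P b p) {k : ℕ} (hk : k < D) :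
    dg P b p k < 2 ^ (b + 1) := by
  unfold dg
  rw [dif_pos hk]
  have e2 : ((2 : ℤ) ^ (b + 1)) = 2 * 2 ^ b := by ring
  have e3 : (0 : ℤ) < 2 ^ b := by positivity
  split_ifs with h0
  · have h1 := hp.f ⟨k, hk⟩ h0
    zify
    rw [e2, Int.toNat_of_nonneg (by linarith [h1.1])]
    linarith [h1.2]
  · have h1 := hp.o ⟨k, hk⟩ h0
    zify
    rw [e2, Int.toNat_of_nonneg (by linarith [h1.1])]
    linarith [h1.2]

theorem dg_inj {P : ℤ} {b : ℕ} {p p' : Fin D → ℤ} (hp : Pos P b p) (hp' : Pos P b p')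
    (h : ∀ k < D, dg P b p k = dg P b p' k) : p = p' := by
  funext k
  have h1 := h k k.2
  unfold dg at h1
  rw [dif_pos k.2, dif_pos k.2] at h1
  split_ifs at h1 with h0
  · have h2 := hp.f k h0
    have h3 := hp'.f k h0
    have h4 : (p k - P).toNat = (p' k - P).toNat := h1
    omega
  · have h2 := hp.o k h0
    have h3 := hp'.o k h0
    have h4 : (p k + 2 ^ b).toNat = (p' k + 2 ^ b).toNat := h1
    omega

end code

theorem lops : LOPS_stmt := by
  intro D hD A w y P P' r s b h x t t' hfit hacc hfirst htt' ht'r hPP hbox hwork hh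
  by_contra hcon
  rw [not_le] at hcon
  classical
  have htime : time A w y P P' t t' = rk (In A w y P P') t t' := by
    unfold time rk
    rw [← Set.ncard_coe_finset]
    congr 1
    ext u
    simp [and_assoc]
  rw [htime] at hcon
  have hwork' : {u : ℕ | t ≤ u ∧ u < t' ∧ In A w y P P' u ∧ ¬Free A w y P P' u}.ncard ≤ x :=
    hwork
  obtain ⟨a, hta, hat', hrun⟩ := run hwork' hcon (by positivity) fun u _ _ _ hB =>
    (not_not.1 hB).2.1
  have hIn : ∀ j ≤ 2 ^ h, In A w y P P' (a + j) := fun j hj => (hrun j hj).1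
  have hM : ∀ j ≤ 2 ^ h, (A.conf w y (a + j)).M = (A.conf w y a).M := by
    intro j hj
    induction j with
    | zero => rfl
    | succ j ih =>
      have h1 := not_not.1 ((hrun j (by omega)).2 (by omega))
      obtain ⟨-, -, u, hu, -, hch⟩ := h1
      have h2 : (A.conf w y (a + j + 1)).M = (A.conf w y (a + j)).M :=
        hch _ hu le_rfl (hIn j (by omega))
      rw [← add_assoc, h2, ih (by omega)]
  have har : a + 2 ^ h ≤ r := by omega
  set f : ℕ → ℕ := fun j => num (A.conf w y (a + j)).q +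
    2 ^ (s + 1) * tab (2 ^ (b + 1)) D (dg P b (A.conf w y (a + j)).h) with hf
  have hq : ∀ j ≤ 2 ^ h, num (A.conf w y (a + j)).q < 2 ^ (s + 1) := by
    intro j hj
    refine lt_of_lt_of_le (num_lt _) (Nat.pow_le_pow_right (by norm_num) ?_)
    have := (hfit (a + j) (by omega)).1
    omega
  have hB : ∀ j ≤ 2 ^ h, Pos P b (A.conf w y (a + j)).h := by
    intro j hj
    refine ⟨fun k hk => ?_, fun k hk => hbox _ (by omega) (by omega) k hk⟩
    have h1 := hIn j hj
    unfold In Pool.Agent.Helper92.RECT.fst at h1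
    rw [dif_pos hD] at h1
    have h2 : k = ⟨0, hD⟩ := Fin.ext hk
    rw [h2]
    exact ⟨h1.1, lt_of_lt_of_le h1.2 hPP⟩
  have hflt : ∀ j ∈ (Finset.range (2 ^ h + 1) : Finset ℕ), f j ∈ Finset.range (2 ^ h) := by
    intro j hj
    rw [mem_range] at hj ⊢
    have h1 := hq j (by omega)
    have h2 : tab (2 ^ (b + 1)) D (dg P b (A.conf w y (a + j)).h) < (2 ^ (b + 1)) ^ D :=
      tab_lt fun k hk => dg_lt (hB j (by omega)) hk
    have h3 : 2 ^ (s + 1) * (2 ^ (b + 1)) ^ D ≤ 2 ^ h := by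
      rw [← pow_mul, ← pow_add]
      exact Nat.pow_le_pow_right (by norm_num) (by omega)
    have h4 : 2 ^ (s + 1) * (tab (2 ^ (b + 1)) D (dg P b (A.conf w y (a + j)).h) + 1) ≤
        2 ^ (s + 1) * (2 ^ (b + 1)) ^ D := Nat.mul_le_mul_left _ h2
    rw [mul_add, mul_one] at h4
    show num (A.conf w y (a + j)).q +
      2 ^ (s + 1) * tab (2 ^ (b + 1)) D (dg P b (A.conf w y (a + j)).h) < 2 ^ h
    omega
  obtain ⟨j₁, hj₁, j₂, hj₂, hne, e⟩ := exists_ne_map_eq_of_card_lt_of_maps_to
    (s := range (2 ^ h + 1)) (t := range (2 ^ h)) (f := f) (by simp) hflt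
  rw [mem_range] at hj₁ hj₂
  have hconf : ∀ j₁ j₂ : ℕ, j₁ ≤ 2 ^ h → j₂ ≤ 2 ^ h → f j₁ = f j₂ →
      A.conf w y (a + j₁) = A.conf w y (a + j₂) := by
    intro j₁ j₂ h1 h2 e
    have e1 : num (A.conf w y (a + j₁)).q +
        2 ^ (s + 1) * tab (2 ^ (b + 1)) D (dg P b (A.conf w y (a + j₁)).h) =
        num (A.conf w y (a + j₂)).q +
        2 ^ (s + 1) * tab (2 ^ (b + 1)) D (dg P b (A.conf w y (a + j₂)).h) := e
    have eq1 : num (A.conf w y (a + j₁)).q = num (A.conf w y (a + j₂)).q := by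
      have := congrArg (· % 2 ^ (s + 1)) e1
      simpa only [Nat.add_mul_mod_self_left, Nat.mod_eq_of_lt (hq j₁ h1),
        Nat.mod_eq_of_lt (hq j₂ h2)] using this
    have eq2 : tab (2 ^ (b + 1)) D (dg P b (A.conf w y (a + j₁)).h) =
        tab (2 ^ (b + 1)) D (dg P b (A.conf w y (a + j₂)).h) := by
      rw [eq1] at e1
      exact Nat.eq_of_mul_eq_mul_left (by positivity) (Nat.add_left_cancel e1)
    have eq3 : (A.conf w y (a + j₁)).h = (A.conf w y (a + j₂)).h := by
      apply dg_inj (hB j₁ h1) (hB j₂ h2)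
      intro k hk
      have d1 := dig_tab (q := 2 ^ (b + 1)) (m := D)
        (d := dg P b (A.conf w y (a + j₁)).h) (fun k hk => dg_lt (hB j₁ h1) hk) hk
      have d2 := dig_tab (q := 2 ^ (b + 1)) (m := D)
        (d := dg P b (A.conf w y (a + j₂)).h) (fun k hk => dg_lt (hB j₂ h2) hk) hk
      rw [← d1, ← d2, eq2]
    have eq4 : (A.conf w y (a + j₁)).q = (A.conf w y (a + j₂)).q := num_injective eq1
    have eq5 : (A.conf w y (a + j₁)).M = (A.conf w y (a + j₂)).M := by
      rw [hM j₁ h1, hM j₂ h2]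
    cases h1' : A.conf w y (a + j₁)
    cases h2' : A.conf w y (a + j₂)
    rw [h1', h2'] at eq3 eq4 eq5
    simp only at eq3 eq4 eq5
    subst eq3 eq4 eq5
    rfl
  have hshift : ∀ u v : ℕ, A.conf w y u = A.conf w y v → ∀ m,
      A.conf w y (u + m) = A.conf w y (v + m) := by
    intro u v huv m
    induction m with
    | zero => exact huv
    | succ m ih =>
      rw [← add_assoc, ← add_assoc]
      show A.step w y (A.conf w y (u + m)) = A.step w y (A.conf w y (v + m))
      rw [ih]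
  have key : ∀ j₁ j₂ : ℕ, j₁ < j₂ → j₂ ≤ 2 ^ h → f j₁ = f j₂ → False := by
    intro j₁ j₂ hlt hle e
    have h1 := hshift _ _ (hconf j₁ j₂ (by omega) hle e) (r - (a + j₂))
    rw [show a + j₂ + (r - (a + j₂)) = r by omega] at h1
    apply hfirst (a + j₁ + (r - (a + j₂))) (by omega)
    unfold OneHead.AcceptsAt
    rw [h1]
    exact hacc
  rcases Nat.lt_or_gt_of_ne hne with h1 | h1
  · exact key j₁ j₂ h1 (by omega) e
  · exact key j₂ j₁ h1 (by omega) e.symm

end Pool.Agent.Helper2.RECT
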